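import Mathlib

/-!
A connected cubic graph of order 16 whose upper minus domination number exceeds its signed
domination number.
-/

namespace Pool.Agent.Results.MP_260dff_co.UpperMinusLarger

open Finset

/-- `f(N[v])`, the sum of `f` over the closed neighbourhood of `v`. -/
noncomputable def nsum {V : Type} [Fintype V] (G : SimpleGraph V) (f : V → ℤ) (v : V) : ℤ :=
  by classical exact ∑ u, if u = v ∨ G.Adj v u then f u else 0

/-- `f` is a signed dominating function of `G`. -/
def IsSigned {V : Type} [Fintype V] (G : SimpleGraph V) (f : V → ℤ) : Prop :=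
  (∀ v, f v = -1 ∨ f v = 1) ∧ ∀ v, 1 ≤ nsum G f v

/-- `f` is a minus dominating function of `G`. -/
def IsMinus {V : Type} [Fintype V] (G : SimpleGraph V) (f : V → ℤ) : Prop :=
  (∀ v, f v = -1 ∨ f v = 0 ∨ f v = 1) ∧ ∀ v, 1 ≤ nsum G f v

/-- `f` is a minimal minus dominating function of `G`. -/
def IsMinimalMinus {V : Type} [Fintype V] (G : SimpleGraph V) (f : V → ℤ) : Prop :=
  IsMinus G f ∧ ∀ g, IsMinus G g → (∀ u, g u ≤ f u) → g = f

/-- The weight of `f`. -/
def weight {V : Type} [Fintype V] (f : V → ℤ) : ℤ := ∑ v, f v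

/-- The signed domination number. -/
noncomputable def signedNumber {V : Type} [Fintype V] (G : SimpleGraph V) : ℤ :=
  sInf {w : ℤ | ∃ f, IsSigned G f ∧ weight f = w}

/-- The upper minus domination number. -/
noncomputable def upperMinus {V : Type} [Fintype V] (G : SimpleGraph V) : ℤ :=
  sSup {w : ℤ | ∃ f, IsMinimalMinus G f ∧ weight f = w}

/-- `G` is cubic. -/
def IsCubic {V : Type} (G : SimpleGraph V) : Prop := ∀ v, (G.neighborSet v).ncard = 3

theorem minimal_of_tight {V : Type} [Fintype V] (G : SimpleGraph V) (f : V → ℤ)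
    (hf : IsMinus G f)
    (ht : ∀ v, 0 ≤ f v → ∃ u, (u = v ∨ G.Adj u v) ∧ nsum G f u = 1) : IsMinimalMinus G f := by
  classical
  refine ⟨hf, fun g hg hle => ?_⟩
  by_contra hne
  obtain ⟨v, hv⟩ : ∃ v, g v ≠ f v := by
    by_contra hcon
    push Not at hcon
    exact hne (funext hcon)
  have hlt : g v < f v := lt_of_le_of_ne (hle v) hv
  have hf0 : 0 ≤ f v := by
    rcases hg.1 v with h | h | h <;> rcases hf.1 v with h' | h' | h' <;> omega
  obtain ⟨u, hu, hs⟩ := ht v hf0
  have h1 : nsum G g u < nsum G f u := by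
    unfold nsum
    apply Finset.sum_lt_sum
    · intro x _
      split_ifs
      · exact hle x
      · exact le_refl _
    · refine ⟨v, mem_univ v, ?_⟩
      have hc : v = u ∨ G.Adj u v := by
        rcases hu with h | h
        · exact Or.inl h.symm
        · exact Or.inr h
      rw [if_pos hc, if_pos hc]
      exact hlt
  have h2 := hg.2 u
  omega

/-- Rows of the adjacency matrix as bit masks. -/
def rows : List ℕ :=
  [0x70, 0x380, 0x1c00, 0xe000, 0x1041, 0xc01, 0x211, 0x1102, 0x482, 0x8042, 0x124, 0x2024,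
    0x94, 0x4808, 0xa008, 0x4208]

/-- Adjacency. -/
def adjB (i j : Fin 16) : Bool := (rows.getD i.val 0).testBit j.val

/-- The graph. -/
def G : SimpleGraph (Fin 16) where
  Adj i j := adjB i j = true
  symm := ⟨by decide +kernel⟩
  loopless := ⟨by decide +kernel⟩

instance : DecidableRel G.Adj := fun i j => inferInstanceAs (Decidable (adjB i j = true))

/-- A minimal minus dominating function of weight 9. -/
def f0 : Fin 16 → ℤ := ![1, 1, -1, 1, 0, 0, 1, 1, 1, -1, 1, 1, 1, 1, 1, 0]

/-- A signed dominating function of weight 8. -/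
def g0 : Fin 16 → ℤ := ![-1, -1, -1, -1, 1, 1, 1, 1, 1, 1, 1, 1, 1, 1, 1, 1]

theorem nsum_eq (f : Fin 16 → ℤ) (v : Fin 16) :
    nsum G f v = ∑ u, if u = v ∨ G.Adj v u then f u else 0 := by
  unfold nsum
  apply sum_congr rfl
  intro u _
  congr

theorem f0_minus : IsMinus G f0 := by
  constructor
  · decide +kernel
  · intro v
    rw [nsum_eq]
    revert v
    decide +kernel

theorem f0_minimal : IsMinimalMinus G f0 := by
  refine minimal_of_tight G f0 f0_minus ?_
  intro v hv
  have : ∀ v : Fin 16, 0 ≤ f0 v → ∃ u, (u = v ∨ G.Adj u v) ∧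
      (∑ w, if w = u ∨ G.Adj u w then f0 w else 0) = 1 := by decide +kernel
  obtain ⟨u, hu, h⟩ := this v hv
  exact ⟨u, hu, by rw [nsum_eq]; exact h⟩

theorem g0_signed : IsSigned G g0 := by
  constructor
  · decide +kernel
  · intro v
    rw [nsum_eq]
    revert v
    decide +kernel

theorem G_cubic : IsCubic G := by
  intro v
  rw [Set.ncard_eq_toFinset_card']
  have : ∀ v : Fin 16, (G.neighborFinset v).card = 3 := by decide +kernel
  exact this v

theorem G_connected : G.Connected := by
  have key : ∀ v : Fin 16, G.Reachable v 0 := by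
    have h : ∀ v : Fin 16, ∃ a b c, (v = a ∨ G.Adj v a) ∧ (a = b ∨ G.Adj a b) ∧
      (b = c ∨ G.Adj b c) ∧ (c = 0 ∨ G.Adj c 0) := by decide +kernel
    have e : ∀ x y : Fin 16, (x = y ∨ G.Adj x y) → G.Reachable x y := by
      rintro x y (rfl | h)
      · exact SimpleGraph.Reachable.refl _
      · exact h.reachable
    intro v
    obtain ⟨a, b, c, h1, h2, h3, h4⟩ := h v
    exact (e _ _ h1).trans ((e _ _ h2).trans ((e _ _ h3).trans (e _ _ h4)))
  exact ⟨fun a b => (key a).trans (key b).symm⟩

theorem abs_weight_le {V : Type} [Fintype V] (f : V → ℤ) (hf : ∀ v, -1 ≤ f v ∧ f v ≤ 1) :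
    -(Fintype.card V : ℤ) ≤ weight f ∧ weight f ≤ Fintype.card V := by
  unfold weight
  constructor
  · have : ∑ v : V, (-1 : ℤ) ≤ ∑ v, f v := sum_le_sum fun v _ => (hf v).1
    simpa using this
  · have : ∑ v, f v ≤ ∑ v : V, (1 : ℤ) := sum_le_sum fun v _ => (hf v).2
    simpa using this

/-- A connected cubic graph of order 16 with `signedNumber < upperMinus`. -/
theorem result : ∃ G : SimpleGraph (Fin 16), G.Connected ∧ IsCubic G ∧
    signedNumber G < upperMinus G := by
  refine ⟨G, G_connected, G_cubic, ?_⟩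
  have h1 : signedNumber G ≤ 8 := by
    apply csInf_le
    · refine ⟨-(Fintype.card (Fin 16) : ℤ), ?_⟩
      rintro w ⟨f, hf, rfl⟩
      refine (abs_weight_le f fun v => ?_).1
      rcases hf.1 v with h | h <;> omega
    · exact ⟨g0, g0_signed, by decide +kernel⟩
  have h2 : 9 ≤ upperMinus G := by
    apply le_csSup
    · refine ⟨(Fintype.card (Fin 16) : ℤ), ?_⟩
      rintro w ⟨f, hf, rfl⟩
      refine (abs_weight_le f fun v => ?_).2
      rcases hf.1.1 v with h | h | h <;> omega
    · exact ⟨f0, f0_minimal, by decide +kernel⟩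
  omega

end Pool.Agent.Results.MP_260dff_co.UpperMinusLarger
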